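import Mathlib

set_option autoImplicit false

namespace Pool.Agent.Lib.Pb9311c

/-- `H` is a malnormal subgroup of `G`: `H ∩ g H g⁻¹ = 1` for every `g ∈ G ∖ H`. -/
def IsMalnormal {G : Type*} [Group G] (H : Subgroup G) : Prop :=
  ∀ g : G, g ∉ H → ∀ x : G, x ∈ H → g⁻¹ * x * g ∈ H → x = 1

/-- `H` is a maximal abelian subgroup of `G`. -/
def IsMaximalAbelian {G : Type*} [Group G] (H : Subgroup G) : Prop :=
  Maximal (fun K : Subgroup G => ∀ a ∈ K, ∀ b ∈ K, a * b = b * a) H

/-- `G` is a CSA-group: every maximal abelian subgroup of `G` is malnormal in `G`. -/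
def IsCSA (G : Type*) [Group G] : Prop :=
  ∀ H : Subgroup G, IsMaximalAbelian H → IsMalnormal H

/-- A profinite group `G` is pro-`p` if all its quotients by open normal subgroups are
`p`-groups. -/
def IsProP (p : ℕ) (G : Type*) [Group G] [TopologicalSpace G] : Prop :=
  ∀ (N : Subgroup G) [N.Normal], IsOpen (N : Set G) → IsPGroup p (G ⧸ N)

end Pool.Agent.Lib.Pb9311c
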