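import Mathlib
import Pool.Agent.Lib.Pb9311c.Defs

set_option autoImplicit false

namespace Pool.Agent.Lib.Pb9311c

section Division

variable {K D : Type*} [Field K] [DivisionRing D] [Algebra K D] [FiniteDimensional K D]

theorem finrank_dvd (S : Subalgebra K D) : Module.finrank K S ∣ Module.finrank K D := by
  let := divisionRingOfFiniteDimensional K S
  exact ⟨Module.finrank S D, (Module.finrank_mul_finrank K S D).symm⟩

theorem finrank_cases (h9 : Module.finrank K D = 9) (S : Subalgebra K D) :
    Module.finrank K S = 1 ∨ Module.finrank K S = 3 ∨ Module.finrank K S = 9 := by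
  have h := finrank_dvd S
  rw [h9] at h
  have : Module.finrank K S ∈ Nat.divisors 9 := by simp [h]
  have h9' : Nat.divisors 9 = {1, 3, 9} := by decide
  rw [h9'] at this
  simpa using this

variable (h9 : Module.finrank K D = 9)
  (hcen : ∀ z : D, (∀ y : D, z * y = y * z) → z ∈ (⊥ : Subalgebra K D))

include h9 hcen in
theorem centralizer_eq_adjoin {x : D} (hx : x ∉ (⊥ : Subalgebra K D)) :
    Algebra.adjoin K {x} = Subalgebra.centralizer K {x} ∧
      Module.finrank K (Algebra.adjoin K {x}) = 3 := by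
  have hle : Algebra.adjoin K {x} ≤ Subalgebra.centralizer K {x} := by
    rw [Algebra.adjoin_le_iff]
    intro y hy
    rw [Set.mem_singleton_iff] at hy
    subst hy
    exact Subalgebra.mem_centralizer_iff K |>.2 (by simp)
  have hne : Module.finrank K (Algebra.adjoin K {x}) ≠ 1 := by
    intro h
    rw [Subalgebra.finrank_eq_one_iff] at h
    exact hx (h ▸ Algebra.self_mem_adjoin_singleton K x)
  have hne9 : Module.finrank K (Subalgebra.centralizer K {x}) ≠ 9 := by
    intro h
    have htop : Subalgebra.centralizer K {x} = ⊤ := by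
      refine Subalgebra.eq_of_le_of_finrank_eq le_top ?_
      rw [h, ← h9]
      exact (Subalgebra.topEquiv (R := K) (A := D)).toLinearEquiv.finrank_eq.symm
    refine hx (hcen x fun y => ?_)
    have hy : y ∈ Subalgebra.centralizer K {x} := by rw [htop]; trivial
    exact (Subalgebra.mem_centralizer_iff K).1 hy x (Set.mem_singleton x)
  have hmono : Module.finrank K (Algebra.adjoin K {x}) ≤
      Module.finrank K (Subalgebra.centralizer K {x}) :=
    Submodule.finrank_mono (s := Subalgebra.toSubmodule (Algebra.adjoin K {x}))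
      (t := Subalgebra.toSubmodule (Subalgebra.centralizer K {x})) hle
  have h1 := finrank_cases h9 (Algebra.adjoin K {x})
  have h2 := finrank_cases h9 (Subalgebra.centralizer K {x})
  have h3 : Module.finrank K (Algebra.adjoin K {x}) = 3 := by omega
  have h4 : Module.finrank K (Subalgebra.centralizer K {x}) = 3 := by omega
  exact ⟨Subalgebra.eq_of_le_of_finrank_eq hle (by rw [h3, h4]), h3⟩

include h9 hcen in
theorem comm_of_comm {x y z : D} (hx : x ∉ (⊥ : Subalgebra K D)) (hy : x * y = y * x)
    (hz : x * z = z * x) : y * z = z * y := by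
  obtain ⟨h, -⟩ := centralizer_eq_adjoin h9 hcen hx
  have hy' : y ∈ Algebra.adjoin K {x} := by
    rw [h, Subalgebra.mem_centralizer_iff]
    simpa using hy
  have hz' : z ∈ Algebra.adjoin K {x} := by
    rw [h, Subalgebra.mem_centralizer_iff]
    simpa using hz
  exact setLike_mul_comm (s := Algebra.adjoin K {x}) hy' hz'

/-- Conjugation by a nonzero element as an algebra homomorphism. -/
def conjHom (u : D) (hu : u ≠ 0) : D →ₐ[K] D where
  toFun y := u * y * u⁻¹
  map_one' := by simp [hu]
  map_mul' a b := by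
    have : u⁻¹ * u = 1 := inv_mul_cancel₀ hu
    calc u * (a * b) * u⁻¹ = u * a * 1 * b * u⁻¹ := by simp [mul_assoc]
      _ = u * a * u⁻¹ * (u * b * u⁻¹) := by rw [← this]; simp only [mul_assoc]
  map_zero' := by simp
  map_add' a b := by simp [mul_add, add_mul]
  commutes' r := by
    rw [← Algebra.commutes r u, mul_assoc, mul_inv_cancel₀ hu, mul_one]

open scoped IsMulCommutative in
include h9 hcen in
/-- If `x` is not central and `g` normalises the centraliser of `x` in the sense that all
conjugates `g ^ i x g ^ (-i)`, `i ≤ 3`, commute with `x`, then some `g ^ m`, `1 ≤ m ≤ 3`,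
commutes with `x`. -/
theorem exists_pow_comm {x g : D} (hx : x ∉ (⊥ : Subalgebra K D)) (hg : g ≠ 0)
    (hconj : ∀ i : ℕ, x * (g ^ i * x * (g ^ i)⁻¹) = (g ^ i * x * (g ^ i)⁻¹) * x) :
    ∃ m : ℕ, 1 ≤ m ∧ m ≤ 3 ∧ g ^ m * x = x * g ^ m := by
  classical
  obtain ⟨h, h3⟩ := centralizer_eq_adjoin h9 hcen hx
  have hmem : ∀ i : ℕ, g ^ i * x * (g ^ i)⁻¹ ∈ Algebra.adjoin K {x} := by
    intro i
    rw [h, Subalgebra.mem_centralizer_iff]
    simpa using hconj i
  let E := Algebra.adjoin K {x}
  let X : Fin 4 → E := fun i => ⟨g ^ (i : ℕ) * x * (g ^ (i : ℕ))⁻¹, hmem i⟩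
  let x' : E := ⟨x, Algebra.self_mem_adjoin_singleton K x⟩
  let p : Polynomial K := minpoly K x'
  have hpm : p.Monic := minpoly.monic (Algebra.IsIntegral.isIntegral x')
  have hdeg : p.natDegree ≤ 3 := by
    have := minpoly.natDegree_le (A := K) x'
    rwa [h3] at this
  have hpx : Polynomial.aeval x p = 0 := by
    have h0 : Polynomial.aeval x' p = 0 := minpoly.aeval K x'
    have h1 := Polynomial.aeval_subalgebra_coe p E x'
    rw [h0] at h1
    exact h1.symm
  have hroot : ∀ i, Polynomial.aeval (X i) p = 0 := by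
    intro i
    have hu : g ^ (i : ℕ) ≠ 0 := pow_ne_zero _ hg
    have h1 := Polynomial.aeval_algHom_apply (conjHom (K := K) (g ^ (i : ℕ)) hu) x p
    rw [hpx, map_zero] at h1
    have h2 := Polynomial.aeval_subalgebra_coe p E (X i)
    apply Subtype.ext
    rw [h2]
    exact h1
  have hnot : ¬ Function.Injective X := by
    intro hinj
    have hp0 : p.map (algebraMap K E) ≠ 0 := (hpm.map _).ne_zero
    have hsub : Finset.univ.image X ⊆ (p.map (algebraMap K E)).roots.toFinset := by
      intro y hy
      rw [Finset.mem_image] at hy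
      obtain ⟨i, -, rfl⟩ := hy
      rw [Multiset.mem_toFinset, Polynomial.mem_roots hp0, Polynomial.IsRoot,
        Polynomial.eval_map_algebraMap]
      exact hroot i
    have h1 := Finset.card_le_card hsub
    rw [Finset.card_image_of_injective _ hinj] at h1
    have h2 := Multiset.toFinset_card_le (p.map (algebraMap K E)).roots
    have h3 := Polynomial.card_roots' (p.map (algebraMap K E))
    have h4 := Polynomial.natDegree_map_le (f := algebraMap K E) (p := p)
    simp only [Finset.card_univ, Fintype.card_fin] at h1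
    omega
  rw [Function.not_injective_iff] at hnot
  obtain ⟨i, j, hij, hne⟩ := hnot
  -- reduce to the ordered case
  have key : ∀ i j : Fin 4, X i = X j → i < j →
      ∃ m : ℕ, 1 ≤ m ∧ m ≤ 3 ∧ g ^ m * x = x * g ^ m := by
    intro i j hij hlt
    refine ⟨j - i, by omega, by omega, ?_⟩
    have h0 : g ^ (i : ℕ) * x * (g ^ (i : ℕ))⁻¹ = g ^ (j : ℕ) * x * (g ^ (j : ℕ))⁻¹ :=
      congrArg Subtype.val hij
    have hi : g ^ (i : ℕ) ≠ 0 := pow_ne_zero _ hg
    have hj : g ^ ((j : ℕ) - i) ≠ 0 := pow_ne_zero _ hg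
    have hpow : g ^ (j : ℕ) = g ^ (i : ℕ) * g ^ ((j : ℕ) - i) := by
      rw [← pow_add]
      congr 1
      omega
    rw [hpow, mul_inv_rev] at h0
    have h1 : x = g ^ ((j : ℕ) - i) * x * (g ^ ((j : ℕ) - i))⁻¹ := by
      have h2 : g ^ (i : ℕ) * x * (g ^ (i : ℕ))⁻¹ =
          g ^ (i : ℕ) * (g ^ ((j : ℕ) - i) * x * (g ^ ((j : ℕ) - i))⁻¹) * (g ^ (i : ℕ))⁻¹ := by
        rw [h0]
        simp only [mul_assoc]
      have h3 := mul_right_cancel₀ (inv_ne_zero hi) h2
      exact mul_left_cancel₀ hi h3
    rw [eq_mul_inv_iff_mul_eq₀ hj] at h1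
    exact h1.symm
  rcases lt_trichotomy i j with h | h | h
  · exact key i j hij h
  · exact absurd h hne
  · exact key j i hij.symm h

include h9 hcen in
/-- The abstract criterion: a group that maps to the multiplicative monoid of a central division
algebra of degree `3` in such a way that only the trivial element has its first, second or third
power in the centre, is a CSA-group. -/
theorem isCSA_of_hom {G : Type*} [Group G] (ρ : G →* D)
    (hρ : ∀ g : G, ∀ m : ℕ, 1 ≤ m → m ≤ 3 → (ρ g) ^ m ∈ (⊥ : Subalgebra K D) → g = 1) :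
    IsCSA G := by
  have hρ1 : ∀ g : G, ρ g ∈ (⊥ : Subalgebra K D) → g = 1 := fun g hg =>
    hρ g 1 le_rfl (by norm_num) (by simpa using hg)
  have hinj : Function.Injective ρ := by
    rw [injective_iff_map_eq_one]
    intro g hg
    refine hρ1 g ?_
    rw [hg]
    exact one_mem _
  have hne : ∀ g : G, ρ g ≠ 0 := by
    intro g h
    have h1 : ρ g * ρ g⁻¹ = 1 := by rw [← map_mul, mul_inv_cancel, map_one]
    rw [h, zero_mul] at h1
    exact zero_ne_one h1
  have hinv : ∀ g : G, ρ g⁻¹ = (ρ g)⁻¹ := by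
    intro g
    have h1 : ρ g * ρ g⁻¹ = 1 := by rw [← map_mul, mul_inv_cancel, map_one]
    exact eq_inv_of_mul_eq_one_right h1
  intro H hH g₀ hg₀ x hx hgx₀
  obtain ⟨g, rfl⟩ : ∃ g : G, g₀ = g⁻¹ := ⟨g₀⁻¹, by simp⟩
  have hg : g ∉ H := fun h => hg₀ (H.inv_mem h)
  have hgx : g * x * g⁻¹ ∈ H := by simpa using hgx₀
  by_contra hx1
  have hX : ρ x ∉ (⊥ : Subalgebra K D) := fun h => hx1 (hρ1 x h)
  -- the centraliser of `x` in `G` equals `H`
  have hcentH : ∀ z : G, z * x = x * z → z ∈ H := by
    intro z hz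
    have hle : H ≤ Subgroup.centralizer {x} := by
      intro y hy
      rw [Subgroup.mem_centralizer_iff]
      intro w hw
      rw [Set.mem_singleton_iff] at hw
      subst hw
      exact hH.prop w hx y hy
    have hab : ∀ a ∈ Subgroup.centralizer {x}, ∀ b ∈ Subgroup.centralizer {x},
        a * b = b * a := by
      intro a ha b hb
      rw [Subgroup.mem_centralizer_iff] at ha hb
      have ha' := ha x rfl
      have hb' := hb x rfl
      apply hinj
      rw [map_mul, map_mul]
      refine comm_of_comm h9 hcen hX ?_ ?_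
      · rw [← map_mul, ha', map_mul]
      · rw [← map_mul, hb', map_mul]
    have hmem : z ∈ Subgroup.centralizer {x} := by
      rw [Subgroup.mem_centralizer_iff]
      intro w hw
      rw [Set.mem_singleton_iff] at hw
      subst hw
      exact hz.symm
    exact hH.le_of_ge hab hle hmem
  -- a nontrivial element of `H` has the same centraliser in `D`
  have hcc : ∀ y : G, y ∈ H → y ≠ 1 → ∀ z : D, ρ y * z = z * ρ y → ρ x * z = z * ρ x := by
    intro y hy hy1 z hz
    have hY : ρ y ∉ (⊥ : Subalgebra K D) := fun h => hy1 (hρ1 y h)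
    have hyx : ρ y * ρ x = ρ x * ρ y := by rw [← map_mul, hH.prop y hy x hx, map_mul]
    exact comm_of_comm h9 hcen hY hyx hz
  -- all conjugates of `x` by powers of `g` commute with `x`
  have hconj : ∀ i : ℕ, ρ x * (ρ g ^ i * ρ x * (ρ g ^ i)⁻¹) =
      (ρ g ^ i * ρ x * (ρ g ^ i)⁻¹) * ρ x := by
    intro i
    induction i with
    | zero => simp
    | succ i ih =>
      have hgi : ρ g ≠ 0 := hne g
      -- conjugate the induction hypothesis by `g`
      have h1 : ρ (g * x * g⁻¹) * (ρ g ^ (i + 1) * ρ x * (ρ g ^ (i + 1))⁻¹) =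
          (ρ g ^ (i + 1) * ρ x * (ρ g ^ (i + 1))⁻¹) * ρ (g * x * g⁻¹) := by
        have h5 : (conjHom (K := K) (ρ g) hgi) (ρ x) = ρ (g * x * g⁻¹) := by
          rw [map_mul, map_mul, hinv]
          rfl
        have h6 : (conjHom (K := K) (ρ g) hgi) (ρ g ^ i * ρ x * (ρ g ^ i)⁻¹) =
            ρ g ^ (i + 1) * ρ x * (ρ g ^ (i + 1))⁻¹ := by
          change ρ g * (ρ g ^ i * ρ x * (ρ g ^ i)⁻¹) * (ρ g)⁻¹ = _
          rw [pow_succ', mul_inv_rev]
          simp only [mul_assoc]
        rw [← h5, ← h6, ← map_mul, ← map_mul, ih]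
      refine hcc (g * x * g⁻¹) hgx ?_ _ h1
      intro h
      apply hx1
      have : x = g⁻¹ * (g * x * g⁻¹) * g := by group
      rw [this, h]
      group
  obtain ⟨m, hm1, hm3, hm⟩ := exists_pow_comm h9 hcen hX (hne g) hconj
  by_cases hgm : ρ g ^ m ∈ (⊥ : Subalgebra K D)
  · exact hg (hρ g m hm1 hm3 hgm ▸ one_mem H)
  · -- `g` commutes with `g ^ m`, hence with `x`
    have h1 : ρ g * ρ x = ρ x * ρ g :=
      comm_of_comm h9 hcen hgm (by rw [← pow_succ, ← pow_succ']) hm
    refine hg (hcentH g (hinj ?_))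
    rw [map_mul, map_mul]
    exact h1

end Division

end Pool.Agent.Lib.Pb9311c
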