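import Mathlib
import Pool.Agent.Lib.Pb9311c.Abstract

set_option autoImplicit false

namespace Pool.Agent.Lib.Pb9311c

open Matrix

section General

variable {R : Type*} [CommRing R]

/-- The matrix of left multiplication by the uniformiser. -/
def P (t : R) : Matrix (Fin 3) (Fin 3) R := !![0, 1, 0; 0, 0, 1; t, 0, 0]

/-- The cyclic algebra in matrix form. -/
def mat (τ : R →+* R) (t a b c : R) : Matrix (Fin 3) (Fin 3) R :=
  !![a, b, c; t * τ (τ c), τ (τ a), τ (τ b); t * τ b, t * τ c, τ a]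

/-- The reduced norm of the cyclic algebra. -/
def nrd (τ : R →+* R) (t a b c : R) : R :=
  a * τ a * τ (τ a) + t * (b * τ b * τ (τ b)) + t ^ 2 * (c * τ c * τ (τ c)) -
    t * (a * τ c * τ (τ b) + τ a * τ (τ c) * b + τ (τ a) * c * τ b)

theorem det_mat (τ : R →+* R) (t a b c : R) : (mat τ t a b c).det = nrd τ t a b c := by
  simp only [mat, nrd, Matrix.det_fin_three, Matrix.of_apply, Matrix.cons_val', Matrix.cons_val_zero,
    Matrix.cons_val_one, Matrix.cons_val]
  ring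

theorem mat_mem (τ : R →+* R) (t a b c : R) (ht : τ t = t) (h3 : ∀ x, τ (τ (τ x)) = x) :
    mat τ t a b c * P t = P t * (mat τ t a b c).map τ := by
  ext i j
  fin_cases i <;> fin_cases j <;>
    simp [mat, P, Matrix.mul_apply, Fin.sum_univ_three, ht, h3, mul_comm]

theorem eq_mat (τ : R →+* R) (t : R) (ht : τ t = t) (h3 : ∀ x, τ (τ (τ x)) = x)
    (X : Matrix (Fin 3) (Fin 3) R) (hX : X * P t = P t * X.map τ) :
    X = mat τ t (X 0 0) (X 0 1) (X 0 2) := by
  have h := fun i j => congrFun (congrFun hX i) j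
  simp only [P, Matrix.mul_apply, Fin.sum_univ_three, Matrix.map_apply] at h
  have h00 := h 0 0
  have h01 := h 0 1
  have h02 := h 0 2
  have h10 := h 1 0
  have h11 := h 1 1
  have h12 := h 1 2
  have h20 := h 2 0
  have h21 := h 2 1
  have h22 := h 2 2
  simp at h00 h01 h02 h10 h11 h12 h20 h21 h22
  have hinj : Function.Injective τ := by
    intro x y hxy
    rw [← h3 x, ← h3 y, hxy]
  have e11 : X 1 1 = τ (τ (X 0 0)) := by rw [h01, h3]
  have e12 : X 1 2 = τ (τ (X 0 1)) := by rw [h02, h3]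
  have e10 : X 1 0 = t * τ (τ (X 0 2)) := by
    apply hinj
    rw [← h00, map_mul, ht, h3, mul_comm]
  have e22 : X 2 2 = τ (X 0 0) := by
    apply hinj
    rw [← h12, e11]
  have e20 : X 2 0 = t * τ (X 0 1) := by
    rw [← h21]
  have e21 : X 2 1 = t * τ (X 0 2) := by
    rw [← h22]
  ext i j
  fin_cases i <;> fin_cases j <;> simp [mat, e11, e12, e10, e22, e20, e21]

end General

section Series

open PowerSeries

variable {k : Type} [Field k] (s : k ≃+* k)

/-- The automorphism of `k⟦X⟧` induced by `s`. -/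
noncomputable def serEquiv : k⟦X⟧ ≃+* k⟦X⟧ :=
  RingEquiv.ofRingHom (PowerSeries.map (s : k →+* k)) (PowerSeries.map (s.symm : k →+* k))
    (by
      ext f n
      simp [PowerSeries.coeff_map])
    (by
      ext f n
      simp [PowerSeries.coeff_map])

theorem coeff_serEquiv (f : k⟦X⟧) (n : ℕ) : coeff n (serEquiv s f) = s (coeff n f) := by
  simp [serEquiv, PowerSeries.coeff_map]

theorem constantCoeff_serEquiv (f : k⟦X⟧) :
    constantCoeff (serEquiv s f) = s (constantCoeff f) := by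
  rw [← coeff_zero_eq_constantCoeff_apply, ← coeff_zero_eq_constantCoeff_apply, coeff_serEquiv]

theorem serEquiv_X : serEquiv s (X : k⟦X⟧) = X := by
  ext n
  rw [coeff_serEquiv, coeff_X]
  split_ifs <;> simp

theorem serEquiv_cube (hs : ∀ x, s (s (s x)) = x) (f : k⟦X⟧) :
    serEquiv s (serEquiv s (serEquiv s f)) = f := by
  ext n
  simp [coeff_serEquiv, hs]

theorem eq_zero_of_norm {x : k} (h : x * s x * s (s x) = 0) : x = 0 := by
  rcases mul_eq_zero.1 h with h | h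
  · rcases mul_eq_zero.1 h with h | h
    · exact h
    · simpa using h
  · simpa using h

theorem nrd_step {a b c : k⟦X⟧} (h : nrd (serEquiv s : k⟦X⟧ →+* k⟦X⟧) X a b c = 0) :
    ∃ a' b' c' : k⟦X⟧, a = X * a' ∧ b = X * b' ∧ c = X * c' ∧
      nrd (serEquiv s : k⟦X⟧ →+* k⟦X⟧) X a' b' c' = 0 := by
  have hX0 : (X : k⟦X⟧) ≠ 0 := X_ne_zero
  have hX : (serEquiv s : k⟦X⟧ →+* k⟦X⟧) X = X := serEquiv_X s
  have hcc : ∀ f, constantCoeff ((serEquiv s : k⟦X⟧ →+* k⟦X⟧) f) = s (constantCoeff f) :=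
    constantCoeff_serEquiv s
  -- divisibility from the vanishing of the constant coefficient of the norm
  have hdiv : ∀ f r : k⟦X⟧, f * (serEquiv s : k⟦X⟧ →+* k⟦X⟧) f *
      (serEquiv s : k⟦X⟧ →+* k⟦X⟧) ((serEquiv s : k⟦X⟧ →+* k⟦X⟧) f) + X * r = 0 →
      ∃ f', f = X * f' := by
    intro f r hf
    have h1 := congrArg constantCoeff hf
    simp only [map_add, map_mul, hcc, constantCoeff_X, zero_mul, add_zero, map_zero] at h1
    exact X_dvd_iff.2 (eq_zero_of_norm s h1)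
  obtain ⟨a', rfl⟩ := hdiv a (b * (serEquiv s : k⟦X⟧ →+* k⟦X⟧) b *
    (serEquiv s : k⟦X⟧ →+* k⟦X⟧) ((serEquiv s : k⟦X⟧ →+* k⟦X⟧) b) +
    X * (c * (serEquiv s : k⟦X⟧ →+* k⟦X⟧) c *
      (serEquiv s : k⟦X⟧ →+* k⟦X⟧) ((serEquiv s : k⟦X⟧ →+* k⟦X⟧) c)) -
    (a * (serEquiv s : k⟦X⟧ →+* k⟦X⟧) c *
        (serEquiv s : k⟦X⟧ →+* k⟦X⟧) ((serEquiv s : k⟦X⟧ →+* k⟦X⟧) b) +
      (serEquiv s : k⟦X⟧ →+* k⟦X⟧) a *
        (serEquiv s : k⟦X⟧ →+* k⟦X⟧) ((serEquiv s : k⟦X⟧ →+* k⟦X⟧) c) * b +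
      (serEquiv s : k⟦X⟧ →+* k⟦X⟧) ((serEquiv s : k⟦X⟧ →+* k⟦X⟧) a) * c *
        (serEquiv s : k⟦X⟧ →+* k⟦X⟧) b)) (by rw [← h, nrd]; ring)
  generalize hτ : (serEquiv s : k⟦X⟧ →+* k⟦X⟧) = τ at *
  have h1 : b * τ b * τ (τ b) + X * (X * (a' * τ a' * τ (τ a')) + c * τ c * τ (τ c) -
      (a' * τ c * τ (τ b) + τ a' * τ (τ c) * b + τ (τ a') * c * τ b)) = 0 := by
    apply mul_left_cancel₀ hX0
    rw [mul_zero, ← h, nrd]
    simp only [map_mul, hX]
    ring
  obtain ⟨b', rfl⟩ := hdiv b _ h1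
  have h2 : c * τ c * τ (τ c) + X * (a' * τ a' * τ (τ a') + X * (b' * τ b' * τ (τ b')) -
      (a' * τ c * τ (τ b') + τ a' * τ (τ c) * b' + τ (τ a') * c * τ b')) = 0 := by
    apply mul_left_cancel₀ hX0
    rw [mul_zero, ← h1]
    simp only [map_mul, hX]
    ring
  obtain ⟨c', rfl⟩ := hdiv c _ h2
  refine ⟨a', b', c', rfl, rfl, rfl, ?_⟩
  apply mul_left_cancel₀ hX0
  rw [mul_zero, ← h2, nrd]
  simp only [map_mul, hX]
  ring

/-- The reduced norm form over power series is anisotropic. -/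
theorem nrd_series {a b c : k⟦X⟧} (h : nrd (serEquiv s : k⟦X⟧ →+* k⟦X⟧) X a b c = 0) :
    a = 0 ∧ b = 0 ∧ c = 0 := by
  have key : ∀ n : ℕ, ∀ a b c : k⟦X⟧, nrd (serEquiv s : k⟦X⟧ →+* k⟦X⟧) X a b c = 0 →
      X ^ n ∣ a ∧ X ^ n ∣ b ∧ X ^ n ∣ c := by
    intro n
    induction n with
    | zero => intro a b c _; simp
    | succ n ih =>
      intro a b c h
      obtain ⟨a', b', c', rfl, rfl, rfl, h'⟩ := nrd_step s h
      obtain ⟨h1, h2, h3⟩ := ih a' b' c' h'
      rw [pow_succ']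
      exact ⟨mul_dvd_mul_left _ h1, mul_dvd_mul_left _ h2, mul_dvd_mul_left _ h3⟩
  have hz : ∀ f : k⟦X⟧, (∀ n : ℕ, X ^ n ∣ f) → f = 0 := by
    intro f hf
    ext n
    have := X_pow_dvd_iff.1 (hf (n + 1)) n (Nat.lt_succ_self n)
    simpa using this
  exact ⟨hz a fun n => (key n a b c h).1, hz b fun n => (key n a b c h).2.1,
    hz c fun n => (key n a b c h).2.2⟩

/-- The field of fractions of `k⟦X⟧`. -/
abbrev LL (k : Type) [Field k] : Type := FractionRing k⟦X⟧

/-- The automorphism of the fraction field induced by `s`. -/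
noncomputable def sigL : LL k ≃+* LL k := IsFractionRing.ringEquivOfRingEquiv (serEquiv s)

theorem sigL_algebraMap (f : k⟦X⟧) :
    sigL s (algebraMap k⟦X⟧ (LL k) f) = algebraMap k⟦X⟧ (LL k) (serEquiv s f) :=
  IsFractionRing.ringEquivOfRingEquiv_algebraMap _ _

theorem sigL_cube (hs : ∀ x, s (s (s x)) = x) (x : LL k) : sigL s (sigL s (sigL s x)) = x := by
  obtain ⟨a, b, -, rfl⟩ := IsFractionRing.div_surjective (A := k⟦X⟧) x
  simp only [map_div₀, sigL_algebraMap, serEquiv_cube s hs]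

theorem nrd_map {R R' : Type*} [CommRing R] [CommRing R'] (f : R →+* R') (τ : R →+* R)
    (τ' : R' →+* R') (h : ∀ x, τ' (f x) = f (τ x)) (t a b c : R) :
    nrd τ' (f t) (f a) (f b) (f c) = f (nrd τ t a b c) := by
  simp only [nrd, h, map_add, map_sub, map_mul, map_pow]

theorem nrd_smul {R : Type*} [CommRing R] (τ : R →+* R) (r : R) (hr : τ r = r) (t a b c : R) :
    nrd τ t (r * a) (r * b) (r * c) = r ^ 3 * nrd τ t a b c := by
  simp only [nrd, map_mul, hr]
  ring

/-- The reduced norm form over the fraction field is anisotropic. -/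
theorem nrd_field (hs : ∀ x, s (s (s x)) = x) {a b c : LL k}
    (h : nrd (sigL s : LL k →+* LL k) (algebraMap k⟦X⟧ (LL k) X) a b c = 0) :
    a = 0 ∧ b = 0 ∧ c = 0 := by
  obtain ⟨d, hd⟩ := IsLocalization.exist_integer_multiples_of_finite (nonZeroDivisors k⟦X⟧)
    (S := LL k) ![a, b, c]
  have hd0 : (d : k⟦X⟧) ≠ 0 := nonZeroDivisors.coe_ne_zero d
  let σ := serEquiv s
  let r : k⟦X⟧ := σ (σ d) * σ d * d
  have hr0 : r ≠ 0 := by
    refine mul_ne_zero (mul_ne_zero ?_ ?_) hd0 <;> simp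
  have hσr : σ r = r := by
    simp only [r, map_mul]
    rw [serEquiv_cube s hs]
    ring
  have hint : ∀ i : Fin 3, ∃ f : k⟦X⟧,
      algebraMap k⟦X⟧ (LL k) f = algebraMap k⟦X⟧ (LL k) r * ![a, b, c] i := by
    intro i
    obtain ⟨f, hf⟩ := hd i
    refine ⟨σ (σ d) * σ d * f, ?_⟩
    rw [map_mul, hf, Algebra.smul_def, ← mul_assoc, ← map_mul]
  obtain ⟨a', ha'⟩ := hint 0
  obtain ⟨b', hb'⟩ := hint 1
  obtain ⟨c', hc'⟩ := hint 2
  simp only [Matrix.cons_val_zero, Matrix.cons_val_one, Matrix.cons_val] at ha' hb' hc'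
  have hinj : Function.Injective (algebraMap k⟦X⟧ (LL k)) := IsFractionRing.injective _ _
  have hr' : algebraMap k⟦X⟧ (LL k) r ≠ 0 := by
    rw [Ne, map_eq_zero_iff _ hinj]
    exact hr0
  have h1 : nrd (serEquiv s : k⟦X⟧ →+* k⟦X⟧) X a' b' c' = 0 := by
    apply hinj
    rw [map_zero, ← nrd_map (algebraMap k⟦X⟧ (LL k)) (serEquiv s : k⟦X⟧ →+* k⟦X⟧)
      (sigL s : LL k →+* LL k) (fun x => sigL_algebraMap s x), ha', hb', hc',
      nrd_smul _ _ (by
        change sigL s (algebraMap k⟦X⟧ (LL k) r) = _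
        rw [sigL_algebraMap, hσr]), h, mul_zero]
  obtain ⟨h2, h3, h4⟩ := nrd_series s h1
  rw [h2, map_zero] at ha'
  rw [h3, map_zero] at hb'
  rw [h4, map_zero] at hc'
  refine ⟨?_, ?_, ?_⟩
  · exact (mul_eq_zero.1 ha'.symm).resolve_left hr'
  · exact (mul_eq_zero.1 hb'.symm).resolve_left hr'
  · exact (mul_eq_zero.1 hc'.symm).resolve_left hr'

/-- The centre: the fixed field of `sigL s`. -/
noncomputable abbrev KK : Subfield (LL k) := FixedPoints.subfield (Subgroup.zpowers (sigL s)) (LL k)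

theorem mem_KK {x : LL k} : x ∈ KK s ↔ sigL s x = x := by
  constructor
  · intro h
    exact h ⟨sigL s, Subgroup.mem_zpowers _⟩
  · intro h g
    obtain ⟨g, n, rfl⟩ := g
    have h1 : sigL s ∈ MulAction.stabilizer (LL k ≃+* LL k) x := h
    exact (MulAction.stabilizer (LL k ≃+* LL k) x).zpow_mem h1 n

theorem finrank_KK (hs : ∀ x, s (s (s x)) = x) (hs1 : ∃ x, s x ≠ x) :
    Module.finrank (KK s) (LL k) = 3 := by
  have h3 : (sigL s) ^ 3 = 1 := by
    ext x
    exact sigL_cube s hs x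
  have h1 : sigL s ≠ 1 := by
    intro h
    obtain ⟨x, hx⟩ := hs1
    apply hx
    have h2 := sigL_algebraMap s (C x : k⟦X⟧)
    rw [h] at h2
    have h3 := IsFractionRing.injective k⟦X⟧ (LL k) h2
    have h4 := congrArg constantCoeff h3
    rw [constantCoeff_serEquiv] at h4
    simpa using h4.symm
  have : Fact (Nat.Prime 3) := ⟨Nat.prime_three⟩
  have ho : orderOf (sigL s) = 3 := orderOf_eq_prime h3 h1
  have hcard : Nat.card (Subgroup.zpowers (sigL s)) = 3 := by rw [Nat.card_zpowers, ho]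
  have : Finite (Subgroup.zpowers (sigL s)) := Nat.finite_of_card_ne_zero (by rw [hcard]; norm_num)
  have : Fintype (Subgroup.zpowers (sigL s)) := Fintype.ofFinite _
  rw [FixedPoints.finrank_eq_card, ← Nat.card_eq_fintype_card, hcard]

/-- The division algebra, as a subalgebra of `3 × 3` matrices over the fraction field. -/
noncomputable def DD (_hs : ∀ x, s (s (s x)) = x) :
    Subalgebra (KK s) (Matrix (Fin 3) (Fin 3) (LL k)) where
  carrier := {M | M * P (algebraMap k⟦X⟧ (LL k) X) =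
    P (algebraMap k⟦X⟧ (LL k) X) * M.map (sigL s : LL k →+* LL k)}
  mul_mem' := by
    intro a b ha hb
    simp only [Set.mem_ofPred_eq] at ha hb ⊢
    rw [Matrix.map_mul, ← mul_assoc, ← ha, mul_assoc, hb, mul_assoc]
  add_mem' := by
    intro a b ha hb
    simp only [Set.mem_ofPred_eq] at ha hb ⊢
    rw [add_mul, ha, hb, ← mul_add]
    congr 1
    ext i j
    simp
  algebraMap_mem' := by
    intro r
    have hr : sigL s (r : LL k) = r := (mem_KK s).1 r.2
    simp only [Set.mem_ofPred_eq]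
    have h1 : (algebraMap (KK s) (Matrix (Fin 3) (Fin 3) (LL k)) r) = Matrix.scalar (Fin 3) (r : LL k) := by
      rfl
    rw [h1]
    have h2 : (Matrix.scalar (Fin 3) (r : LL k)).map (sigL s : LL k →+* LL k) =
        Matrix.scalar (Fin 3) (r : LL k) := by
      ext i j
      by_cases hij : i = j
      · subst hij
        simp [hr]
      · simp [hij]
    rw [h2]
    exact (Matrix.scalar_commute (r : LL k) (fun r' => mul_comm _ _) _).eq

theorem mem_DD (hs : ∀ x, s (s (s x)) = x) {M : Matrix (Fin 3) (Fin 3) (LL k)} :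
    M ∈ DD s hs ↔ M * P (algebraMap k⟦X⟧ (LL k) X) =
    P (algebraMap k⟦X⟧ (LL k) X) * M.map (sigL s : LL k →+* LL k) := Iff.rfl

theorem sigL_X : (sigL s : LL k →+* LL k) (algebraMap k⟦X⟧ (LL k) X) =
    algebraMap k⟦X⟧ (LL k) X := by
  change sigL s (algebraMap k⟦X⟧ (LL k) X) = _
  rw [sigL_algebraMap, serEquiv_X]

theorem DD_eq_mat (hs : ∀ x, s (s (s x)) = x) {M : Matrix (Fin 3) (Fin 3) (LL k)}
    (hM : M ∈ DD s hs) :
    M = mat (sigL s : LL k →+* LL k) (algebraMap k⟦X⟧ (LL k) X) (M 0 0) (M 0 1) (M 0 2) :=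
  eq_mat _ _ (sigL_X s) (sigL_cube s hs) M hM

theorem mat_mem_DD (hs : ∀ x, s (s (s x)) = x) (a b c : LL k) :
    mat (sigL s : LL k →+* LL k) (algebraMap k⟦X⟧ (LL k) X) a b c ∈ DD s hs :=
  mat_mem _ _ a b c (sigL_X s) (sigL_cube s hs)

theorem det_ne_zero (hs : ∀ x, s (s (s x)) = x) {M : Matrix (Fin 3) (Fin 3) (LL k)}
    (hM : M ∈ DD s hs) (h : M.det = 0) : M = 0 := by
  have h1 := DD_eq_mat s hs hM
  rw [h1, det_mat] at h
  obtain ⟨h2, h3, h4⟩ := nrd_field s hs h
  rw [h1, h2, h3, h4]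
  ext i j
  fin_cases i <;> fin_cases j <;> simp [mat]

instance DD_domain (hs : ∀ x, s (s (s x)) = x) : IsDomain (DD s hs) := by
  have : NoZeroDivisors (DD s hs) := by
    constructor
    intro a b hab
    have h1 : (a : Matrix (Fin 3) (Fin 3) (LL k)) * b = 0 := congrArg Subtype.val hab
    have h2 := congrArg Matrix.det h1
    rw [Matrix.det_mul, Matrix.det_zero] at h2
    rcases mul_eq_zero.1 h2 with h | h
    · left
      exact Subtype.ext (det_ne_zero s hs a.2 h)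
    · right
      exact Subtype.ext (det_ne_zero s hs b.2 h)
  exact NoZeroDivisors.to_isDomain _

/-- The first row determines an element of the division algebra. -/
noncomputable def rowEquiv (hs : ∀ x, s (s (s x)) = x) : DD s hs ≃ₗ[KK s] (Fin 3 → LL k) where
  toFun M := fun j => (M : Matrix (Fin 3) (Fin 3) (LL k)) 0 j
  map_add' M N := by
    ext j
    simp
  map_smul' r M := by
    ext j
    simp
  invFun v := ⟨mat (sigL s : LL k →+* LL k) (algebraMap k⟦X⟧ (LL k) X) (v 0) (v 1) (v 2),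
    mat_mem_DD s hs _ _ _⟩
  left_inv M := by
    apply Subtype.ext
    exact (DD_eq_mat s hs M.2).symm
  right_inv v := by
    ext j
    fin_cases j <;> simp [mat]

theorem finrank_DD (hs : ∀ x, s (s (s x)) = x) (hs1 : ∃ x, s x ≠ x) :
    Module.finrank (KK s) (DD s hs) = 9 := by
  have h3 := finrank_KK s hs hs1
  have : FiniteDimensional (KK s) (LL k) := FiniteDimensional.of_finrank_pos (by rw [h3]; norm_num)
  have : Module.Free (KK s) (LL k) := Module.Free.of_divisionRing _ _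
  rw [(rowEquiv s hs).finrank_eq, Module.finrank_pi_fintype, Finset.sum_const, h3]
  rfl

theorem DD_finite (hs : ∀ x, s (s (s x)) = x) (hs1 : ∃ x, s x ≠ x) :
    FiniteDimensional (KK s) (DD s hs) :=
  FiniteDimensional.of_finrank_pos (by rw [finrank_DD s hs hs1]; norm_num)

/-- The centre of the division algebra. -/
theorem DD_center (hs : ∀ x, s (s (s x)) = x) (hs1 : ∃ x, s x ≠ x) (z : DD s hs)
    (hz : ∀ y, z * y = y * z) : z ∈ (⊥ : Subalgebra (KK s) (DD s hs)) := by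
  obtain ⟨x, hx⟩ := hs1
  set τ : LL k →+* LL k := (sigL s : LL k →+* LL k) with hτ
  set t : LL k := algebraMap k⟦X⟧ (LL k) X with ht
  have htx : τ t = t := sigL_X s
  let x' : LL k := algebraMap k⟦X⟧ (LL k) (C x)
  have hx' : τ x' ≠ x' := by
    intro h
    apply hx
    have h2 : sigL s (algebraMap k⟦X⟧ (LL k) (C x)) = algebraMap k⟦X⟧ (LL k) (C x) := h
    rw [sigL_algebraMap] at h2
    have h3 := IsFractionRing.injective k⟦X⟧ (LL k) h2
    have h4 := congrArg constantCoeff h3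
    rw [constantCoeff_serEquiv] at h4
    simpa using h4
  have hx'' : τ (τ x') ≠ x' := by
    intro h
    apply hx'
    have h1 : τ (τ (τ x')) = x' := sigL_cube s hs x'
    rw [h] at h1
    exact h1
  obtain ⟨M, hM⟩ := z
  have hMat := DD_eq_mat s hs hM
  rw [← hτ, ← ht] at hMat
  have c1 := congrArg Subtype.val (hz ⟨mat τ t x' 0 0, mat_mem_DD s hs _ _ _⟩)
  have c2 := congrArg Subtype.val (hz ⟨mat τ t 0 1 0, mat_mem_DD s hs _ _ _⟩)
  simp only [MulMemClass.coe_mul] at c1 c2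
  rw [hMat] at c1 c2
  have e1 := congrFun (congrFun c1 0) 1
  have e2 := congrFun (congrFun c1 0) 2
  have e3 := congrFun (congrFun c2 0) 1
  simp [mat, Matrix.mul_apply, Fin.sum_univ_three] at e1 e2 e3
  have m01 : M 0 1 = 0 := by
    have h : M 0 1 * (τ (τ x') - x') = 0 := by rw [mul_sub, e1]; ring
    exact (mul_eq_zero.1 h).resolve_right (sub_ne_zero.2 hx'')
  have m02 : M 0 2 = 0 := by
    have h : M 0 2 * (τ x' - x') = 0 := by rw [mul_sub, e2]; ring
    exact (mul_eq_zero.1 h).resolve_right (sub_ne_zero.2 hx')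
  have m00 : τ (M 0 0) = M 0 0 := by
    have h1 : τ (τ (τ (M 0 0))) = M 0 0 := sigL_cube s hs _
    rw [← e3] at h1
    exact h1
  rw [Algebra.mem_bot]
  refine ⟨⟨M 0 0, (mem_KK s).2 m00⟩, ?_⟩
  apply Subtype.ext
  change Matrix.scalar (Fin 3) (M 0 0) = M
  conv_rhs => rw [hMat, m01, m02]
  ext i j
  fin_cases i <;> fin_cases j <;> simp [mat, m00]

end Series

end Pool.Agent.Lib.Pb9311c
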