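import Mathlib
import Pool.Agent.Lib.Pb9311c.Division

set_option autoImplicit false

namespace Pool.Agent.Lib.Pb9311c

open Matrix PowerSeries

theorem sq_eq_one {R : Type*} [Ring R] [IsDomain R] (h2 : (2 : R) = 0) {x : R} (h : x ^ 2 = 1) :
    x = 1 := by
  have h4 : (x - 1) * (x + 1) = 0 := by
    have : (x - 1) * (x + 1) = x ^ 2 - 1 := by
      rw [sub_mul, mul_add, one_mul, mul_one, ← pow_two]
      abel
    rw [this, h, sub_self]
  have h5 : x + 1 = x - 1 := by
    have : x + 1 = x - 1 + 2 := by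
      rw [← one_add_one_eq_two]
      abel
    rw [this, h2, add_zero]
  rw [h5] at h4
  exact sub_eq_zero.1 (mul_self_eq_zero.1 h4)

theorem cube_eq_one {R : Type*} [Ring R] [IsDomain R] {x : R} (h : x ^ 3 = 1) :
    x = 1 ∨ x ^ 2 + x + 1 = 0 := by
  have h4 : (x - 1) * (x ^ 2 + x + 1) = 0 := by
    have : (x - 1) * (x ^ 2 + x + 1) = x ^ 3 - 1 := by
      rw [sub_mul, mul_add, mul_add, one_mul, mul_one, ← pow_succ', ← pow_two]
      abel
    rw [this, h, sub_self]
  rcases mul_eq_zero.1 h4 with h5 | h5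
  · exact Or.inl (sub_eq_zero.1 h5)
  · exact Or.inr h5

section

variable {k : Type} [Field k] (s : k ≃+* k)

/-- Facts about the residue field used below. -/
structure ResField (k : Type) [Field k] (s : k ≃+* k) : Prop where
  two : (2 : k) = 0
  pow7 : ∀ x : k, x ≠ 0 → x ^ 7 = 1
  frob : ∀ x : k, s x = x ^ 2

variable {s} (hk : ResField k s)

include hk

theorem ResField.cube (x : k) : s (s (s x)) = x := by
  rw [hk.frob, hk.frob, hk.frob, ← pow_mul, ← pow_mul]
  by_cases hx : x = 0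
  · simp [hx]
  · have : x ^ (2 * 2 * 2) = x ^ 7 * x := by ring
    rw [this, hk.pow7 x hx, one_mul]

theorem ResField.eq_one_of_cube {x : k} (hx : x ^ 3 = 1) : x = 1 := by
  have h0 : x ≠ 0 := by
    rintro rfl
    simp at hx
  have h7 := hk.pow7 x h0
  calc x = x ^ 7 := by
        have : x ^ 7 = (x ^ 3) ^ 2 * x := by ring
        rw [this, hx]; ring
    _ = 1 := h7

theorem ResField.quad {x : k} (hx : x ^ 2 + x + 1 = 0) : False := by
  have h3 : x ^ 3 = 1 := by
    have : x ^ 3 - 1 = (x - 1) * (x ^ 2 + x + 1) := by ring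
    rw [hx, mul_zero] at this
    exact sub_eq_zero.1 this
  have h1 := hk.eq_one_of_cube h3
  rw [h1] at hx
  have h2 := hk.two
  have : (1 : k) = 0 := by
    have h4 : (1 : k) ^ 2 + 1 + 1 = 2 + 1 := by ring
    rw [h4, h2, zero_add] at hx
    exact hx
  exact one_ne_zero this

theorem eq_one_of_cube_series {c : k⟦X⟧} (hc : c ^ 3 = 1) : c = 1 := by
  have h1 : (constantCoeff c) ^ 3 = 1 := by
    rw [← map_pow, hc, map_one]
  have h2 := hk.eq_one_of_cube h1
  have h3 : (c - 1) * (c ^ 2 + c + 1) = 0 := by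
    have : (c - 1) * (c ^ 2 + c + 1) = c ^ 3 - 1 := by ring
    rw [this, hc, sub_self]
  rcases mul_eq_zero.1 h3 with h | h
  · exact sub_eq_zero.1 h
  · exfalso
    have h4 := congrArg constantCoeff h
    simp only [map_add, map_pow, map_one, map_zero] at h4
    exact hk.quad h4

omit hk
variable (s)

/-- The automorphism of `SL₃(k⟦X⟧)` induced by `s`. -/
noncomputable abbrev sigSL : SpecialLinearGroup (Fin 3) k⟦X⟧ →* SpecialLinearGroup (Fin 3) k⟦X⟧ :=
  SpecialLinearGroup.map (serEquiv s : k⟦X⟧ →+* k⟦X⟧)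

/-- The group of elements of reduced norm one. -/
noncomputable def GG : Subgroup (SpecialLinearGroup (Fin 3) k⟦X⟧) where
  carrier := {g | (g : Matrix (Fin 3) (Fin 3) k⟦X⟧) * P X = P X * (sigSL s g : Matrix (Fin 3) (Fin 3) k⟦X⟧)}
  one_mem' := by simp
  mul_mem' := by
    intro a b ha hb
    simp only [Set.mem_ofPred_eq] at ha hb ⊢
    rw [map_mul]
    change a.1 * b.1 * P X = P X * ((sigSL s a).1 * (sigSL s b).1)
    change a.1 * P X = P X * (sigSL s a).1 at ha
    change b.1 * P X = P X * (sigSL s b).1 at hb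
    rw [mul_assoc, hb, ← mul_assoc, ha, mul_assoc]
  inv_mem' := by
    intro g hg
    simp only [Set.mem_ofPred_eq] at hg ⊢
    have h1 : (g⁻¹ : SpecialLinearGroup (Fin 3) k⟦X⟧).1 * g.1 = 1 :=
      congrArg Subtype.val (inv_mul_cancel g)
    have h2 : (sigSL s g).1 * (sigSL s g⁻¹).1 = 1 := by
      have h3 : sigSL s g * sigSL s g⁻¹ = 1 := by rw [← map_mul, mul_inv_cancel, map_one]
      exact congrArg Subtype.val h3
    calc (g⁻¹ : SpecialLinearGroup (Fin 3) k⟦X⟧).1 * P X
        = (g⁻¹ : SpecialLinearGroup (Fin 3) k⟦X⟧).1 * (P X * ((sigSL s g).1 * (sigSL s g⁻¹).1)) := by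
          rw [h2, mul_one]
      _ = (g⁻¹ : SpecialLinearGroup (Fin 3) k⟦X⟧).1 * (g.1 * P X) * (sigSL s g⁻¹).1 := by
          rw [hg]; simp only [mul_assoc]
      _ = P X * (sigSL s g⁻¹).1 := by
          rw [← mul_assoc (g⁻¹ : SpecialLinearGroup (Fin 3) k⟦X⟧).1, h1, one_mul]

variable {s}

theorem mem_GG {g : SpecialLinearGroup (Fin 3) k⟦X⟧} : g ∈ GG s ↔
    g.1 * P X = P X * g.1.map (serEquiv s : k⟦X⟧ →+* k⟦X⟧) := Iff.rfl

theorem GG_eq_mat (hs : ∀ x, s (s (s x)) = x) {g : SpecialLinearGroup (Fin 3) k⟦X⟧}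
    (hg : g ∈ GG s) :
    g.1 = mat (serEquiv s : k⟦X⟧ →+* k⟦X⟧) X (g.1 0 0) (g.1 0 1) (g.1 0 2) :=
  eq_mat _ _ (serEquiv_X s) (serEquiv_cube s hs) g.1 (mem_GG.1 hg)

/-- The embedding into the division algebra. -/
noncomputable def rho (hs : ∀ x, s (s (s x)) = x) : GG s →* DD s hs where
  toFun g := ⟨(algebraMap k⟦X⟧ (LL k)).mapMatrix g.1.1, by
    rw [mem_DD]
    have h1 := congrArg (algebraMap k⟦X⟧ (LL k)).mapMatrix (mem_GG.1 g.2)
    rw [map_mul, map_mul] at h1
    have h2 : (algebraMap k⟦X⟧ (LL k)).mapMatrix (P X) = P (algebraMap k⟦X⟧ (LL k) X) := by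
      ext i j
      fin_cases i <;> fin_cases j <;> simp [P]
    have h3 : (algebraMap k⟦X⟧ (LL k)).mapMatrix (g.1.1.map (serEquiv s : k⟦X⟧ →+* k⟦X⟧)) =
        ((algebraMap k⟦X⟧ (LL k)).mapMatrix g.1.1).map (sigL s : LL k →+* LL k) := by
      ext i j
      simp only [RingHom.mapMatrix_apply, Matrix.map_apply]
      exact (sigL_algebraMap s _).symm
    rw [h2, h3] at h1
    exact h1⟩
  map_one' := by
    apply Subtype.ext
    simp
  map_mul' a b := by
    apply Subtype.ext
    simp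

theorem rho_coe (hs : ∀ x, s (s (s x)) = x) (g : GG s) :
    (rho hs g : Matrix (Fin 3) (Fin 3) (LL k)) = (algebraMap k⟦X⟧ (LL k)).mapMatrix g.1.1 := rfl

theorem rho_injective (hs : ∀ x, s (s (s x)) = x) : Function.Injective (rho (s := s) hs) := by
  intro a b hab
  have h1 : (algebraMap k⟦X⟧ (LL k)).mapMatrix a.1.1 = (algebraMap k⟦X⟧ (LL k)).mapMatrix b.1.1 :=
    congrArg Subtype.val hab
  apply Subtype.ext
  apply Subtype.ext
  ext1 i j
  have h2 := congrFun (congrFun h1 i) j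
  simp only [RingHom.mapMatrix_apply, Matrix.map_apply] at h2
  exact IsFractionRing.injective k⟦X⟧ (LL k) h2

include hk

theorem eq_one_of_scalar (g : SpecialLinearGroup (Fin 3) k⟦X⟧) (r : LL k)
    (h : Matrix.scalar (Fin 3) r = (algebraMap k⟦X⟧ (LL k)).mapMatrix g.1) : g = 1 := by
  have hinj := IsFractionRing.injective k⟦X⟧ (LL k)
  have hij : ∀ i j, i ≠ j → g.1 i j = 0 := by
    intro i j hij
    have h1 := congrFun (congrFun h i) j
    simp only [RingHom.mapMatrix_apply, Matrix.map_apply] at h1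
    apply hinj
    rw [← h1, map_zero]
    simp [hij]
  have hii : ∀ i, algebraMap k⟦X⟧ (LL k) (g.1 i i) = r := by
    intro i
    have h1 := congrFun (congrFun h i) i
    simp only [RingHom.mapMatrix_apply, Matrix.map_apply] at h1
    rw [← h1]
    simp
  have hd : ∀ i, g.1 i i = g.1 0 0 := fun i => hinj (by rw [hii, hii])
  have hdet := g.2
  rw [Matrix.det_fin_three] at hdet
  rw [hij 0 1 (by decide), hij 0 2 (by decide), hij 1 2 (by decide), hd 1, hd 2] at hdet
  have hc : (g.1 0 0) ^ 3 = 1 := by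
    refine Eq.trans ?_ hdet
    ring
  have hc1 := eq_one_of_cube_series hk hc
  apply Subtype.ext
  ext1 i j
  by_cases h' : i = j
  · subst h'
    rw [hd, hc1]
    simp
  · rw [hij i j h']
    simp [h']

theorem two_DD : (2 : DD s hk.cube) = 0 := by
  have h2 : (2 : LL k) = 0 := by
    have h4 : algebraMap k⟦X⟧ (LL k) (C (2 : k)) = 0 := by rw [hk.two, map_zero, map_zero]
    rw [map_ofNat, map_ofNat] at h4
    exact h4
  apply Subtype.ext
  change ((2 : Matrix (Fin 3) (Fin 3) (LL k))) = 0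
  have h3 : (2 : Matrix (Fin 3) (Fin 3) (LL k)) = Matrix.scalar (Fin 3) (2 : LL k) := by
    rw [map_ofNat]
  rw [h3, h2, map_zero]

theorem rho_pow (g : GG s) (m : ℕ) (hm1 : 1 ≤ m) (hm3 : m ≤ 3)
    (h : (rho hk.cube g) ^ m ∈ (⊥ : Subalgebra (KK s) (DD s hk.cube))) : g = 1 := by
  rw [← map_pow, Algebra.mem_bot] at h
  obtain ⟨r, hr⟩ := h
  have h1 : Matrix.scalar (Fin 3) (r : LL k) =
      (algebraMap k⟦X⟧ (LL k)).mapMatrix (g ^ m).1.1 := congrArg Subtype.val hr
  have h2 : g ^ m = 1 := Subtype.ext (eq_one_of_scalar hk _ _ h1)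
  have h3 : (rho hk.cube g) ^ m = 1 := by rw [← map_pow, h2, map_one]
  have h2' := two_DD hk
  apply rho_injective hk.cube
  rw [map_one]
  interval_cases m
  · simpa using h3
  · exact sq_eq_one h2' h3
  · rcases cube_eq_one h3 with h5 | h5
    · exact h5
    · exfalso
      have h6 : (algebraMap k⟦X⟧ (LL k)).mapMatrix (g.1.1 ^ 2 + g.1.1 + 1) = 0 := by
        rw [map_add, map_add, map_pow, map_one]
        exact congrArg Subtype.val h5
      have h7 := congrFun (congrFun h6 0) 0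
      simp only [RingHom.mapMatrix_apply, Matrix.map_apply] at h7
      have h8 : (g.1.1 ^ 2 + g.1.1 + 1 : Matrix (Fin 3) (Fin 3) k⟦X⟧) 0 0 = 0 := by
        apply IsFractionRing.injective k⟦X⟧ (LL k)
        rw [h7]
        simp
      have hM := GG_eq_mat hk.cube g.2
      have h10 : g.1.1 1 0 = X * (serEquiv s : k⟦X⟧ →+* k⟦X⟧)
          ((serEquiv s : k⟦X⟧ →+* k⟦X⟧) (g.1.1 0 2)) := by
        conv_lhs => rw [hM]
        simp [mat]
      have h20 : g.1.1 2 0 = X * (serEquiv s : k⟦X⟧ →+* k⟦X⟧) (g.1.1 0 1) := by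
        conv_lhs => rw [hM]
        simp [mat]
      rw [pow_two, Matrix.add_apply, Matrix.add_apply, Matrix.mul_apply, Fin.sum_univ_three,
        h10, h20] at h8
      have h9 := congrArg constantCoeff h8
      simp only [map_add, map_mul, constantCoeff_X, zero_mul, mul_zero, add_zero,
        Matrix.one_apply_eq, map_one, map_zero] at h9
      rw [← pow_two] at h9
      exact hk.quad h9

/-- The norm one group is a CSA-group. -/
theorem GG_isCSA (hs1 : ∃ x, s x ≠ x) : IsCSA (GG s) := by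
  have hfin := DD_finite s hk.cube hs1
  let := divisionRingOfFiniteDimensional (KK s) (DD s hk.cube)
  exact isCSA_of_hom (K := KK s) (D := DD s hk.cube) (finrank_DD s hk.cube hs1)
    (DD_center s hk.cube hs1) (rho hk.cube) (rho_pow hk)

end

end Pool.Agent.Lib.Pb9311c
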