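import Mathlib
import Pool.Agent.Lib.Pb9311c.Group

set_option autoImplicit false

namespace Pool.Agent.Lib.Pb9311c

open Matrix PowerSeries
open scoped PowerSeries.WithPiTopology

section Topology

variable {k : Type} [Field k] (s : k ≃+* k) [TopologicalSpace k] [DiscreteTopology k] [Finite k]

instance compactSeries : CompactSpace k⟦X⟧ :=
  inferInstanceAs (CompactSpace ((Unit →₀ ℕ) → k))

instance totDiscSeries : TotallyDisconnectedSpace k⟦X⟧ :=
  inferInstanceAs (TotallyDisconnectedSpace ((Unit →₀ ℕ) → k))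

instance compactSL : CompactSpace (SpecialLinearGroup (Fin 3) k⟦X⟧) := by
  have : CompactSpace (Matrix (Fin 3) (Fin 3) k⟦X⟧) :=
    inferInstanceAs (CompactSpace (Fin 3 → Fin 3 → k⟦X⟧))
  exact (SpecialLinearGroup.isClosedEmbedding_val (n := Fin 3) (R := k⟦X⟧)).compactSpace

instance totDiscSL : TotallyDisconnectedSpace (SpecialLinearGroup (Fin 3) k⟦X⟧) := by
  have : TotallyDisconnectedSpace (Matrix (Fin 3) (Fin 3) k⟦X⟧) :=
    inferInstanceAs (TotallyDisconnectedSpace (Fin 3 → Fin 3 → k⟦X⟧))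
  exact (SpecialLinearGroup.isClosedEmbedding_val (n := Fin 3) (R := k⟦X⟧)).isEmbedding.isTotallyDisconnected_range.1
    (isTotallyDisconnected_of_totallyDisconnectedSpace _)

omit [Finite k] in
theorem continuous_serEquiv : Continuous (serEquiv s : k⟦X⟧ → k⟦X⟧) := by
  refine continuous_pi fun d => ?_
  exact (continuous_of_discreteTopology (f := (s : k → k))).comp (continuous_apply d)

theorem isClosed_GG : IsClosed (GG s : Set (SpecialLinearGroup (Fin 3) k⟦X⟧)) := by
  have h1 : Continuous (fun g : SpecialLinearGroup (Fin 3) k⟦X⟧ => g.1) := continuous_subtype_val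
  have h2 : Continuous (fun g : SpecialLinearGroup (Fin 3) k⟦X⟧ => g.1 * P X) :=
    h1.matrix_mul continuous_const
  have h3 : Continuous (fun g : SpecialLinearGroup (Fin 3) k⟦X⟧ =>
      P X * g.1.map (serEquiv s : k⟦X⟧ →+* k⟦X⟧)) :=
    continuous_const.matrix_mul (h1.matrix_map (continuous_serEquiv s))
  exact isClosed_eq h2 h3

theorem compactGG : CompactSpace (GG s) :=
  isCompact_iff_compactSpace.1 (isClosed_GG s).isCompact

/-- Reduction modulo the uniformiser of the coefficient ring. -/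
noncomputable def red : GG s →* SpecialLinearGroup (Fin 3) k :=
  (SpecialLinearGroup.map (constantCoeff (R := k))).comp (GG s).subtype

omit [DiscreteTopology k] [Finite k] in
theorem continuous_red : Continuous (red s) := by
  have h1 : Continuous (constantCoeff (R := k)) := WithPiTopology.continuous_constantCoeff k
  exact (Continuous.specialLinearGroup_map h1).comp continuous_subtype_val

omit [Finite k] in
theorem isOpen_ker_red : IsOpen ((red s).ker : Set (GG s)) := by
  have : ((red s).ker : Set (GG s)) = red s ⁻¹' {1} := by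
    ext g
    simp [MonoidHom.mem_ker]
  rw [this]
  exact (isOpen_discrete _).preimage (continuous_red s)

end Topology

section Elements

variable {k : Type} [Field k] {s : k ≃+* k}

theorem red_coe (g : GG s) (i j : Fin 3) :
    (red s g).1 i j = constantCoeff (g.1.1 i j) := rfl

/-- Elements of `GG` from matrices. -/
def mkGG (M : Matrix (Fin 3) (Fin 3) k⟦X⟧) (hdet : M.det = 1)
    (hM : M * P X = P X * M.map (serEquiv s : k⟦X⟧ →+* k⟦X⟧)) : GG s :=
  ⟨⟨M, hdet⟩, hM⟩

variable (hk : ResField k s)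

include hk

/-- The matrix of a Teichmüller element. -/
theorem exists_c {z : k} (hz : z ≠ 0) : ∃ c : GG s,
    c.1.1 = mat (serEquiv s : k⟦X⟧ →+* k⟦X⟧) X (C z) 0 0 := by
  refine ⟨mkGG (mat (serEquiv s : k⟦X⟧ →+* k⟦X⟧) X (C z) 0 0) ?_
    (mat_mem _ _ _ _ _ (serEquiv_X s) (serEquiv_cube s hk.cube)), rfl⟩
  rw [det_mat]
  have hC : ∀ x : k, (serEquiv s : k⟦X⟧ →+* k⟦X⟧) (C x) = C (s x) := by
    intro x
    ext n
    change coeff n (serEquiv s (C x)) = _
    rw [coeff_serEquiv, coeff_C, coeff_C]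
    split_ifs <;> simp
  simp only [nrd, hC, map_zero, mul_zero, add_zero, sub_zero, ← map_mul]
  rw [hk.frob, hk.frob]
  have : z * z ^ 2 * (z ^ 2) ^ 2 = z ^ 7 := by ring
  rw [this, hk.pow7 z hz, map_one]

omit hk in
theorem P_cube {R : Type*} [CommRing R] (t : R) : P t * P t * P t = t • (1 : Matrix (Fin 3) (Fin 3) R) := by
  ext i j
  fin_cases i <;> fin_cases j <;> simp [P, Matrix.mul_apply, Fin.sum_univ_three]

omit hk in
theorem rel_mul {R : Type*} [CommRing R] (τ : R →+* R) (t : R) {A B : Matrix (Fin 3) (Fin 3) R}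
    (hA : A * P t = P t * A.map τ) (hB : B * P t = P t * B.map τ) :
    A * B * P t = P t * (A * B).map τ := by
  rw [mul_assoc, hB, ← mul_assoc, hA, mul_assoc, Matrix.map_mul]

omit hk in
theorem rel_add {R : Type*} [CommRing R] (τ : R →+* R) (t : R) {A B : Matrix (Fin 3) (Fin 3) R}
    (hA : A * P t = P t * A.map τ) (hB : B * P t = P t * B.map τ) :
    (A + B) * P t = P t * (A + B).map τ := by
  have : (A + B).map τ = A.map τ + B.map τ := by
    ext i j
    simp
  rw [add_mul, hA, hB, ← mul_add, this]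

omit hk in
theorem rel_smul {R : Type*} [CommRing R] (τ : R →+* R) (t w : R) (hw : τ w = w)
    {A : Matrix (Fin 3) (Fin 3) R}
    (hA : A * P t = P t * A.map τ) :
    (w • A) * P t = P t * (w • A).map τ := by
  have : (w • A).map τ = w • A.map τ := by
    ext i j
    simp [hw]
  rw [this, Matrix.smul_mul, hA, Matrix.mul_smul]

omit hk in
theorem rel_one {R : Type*} [CommRing R] (τ : R →+* R) (t : R) :
    (1 : Matrix (Fin 3) (Fin 3) R) * P t = P t * (1 : Matrix (Fin 3) (Fin 3) R).map τ := by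
  rw [Matrix.map_one τ (map_zero τ) (map_one τ), one_mul, mul_one]

omit hk in
theorem rel_P {R : Type*} [CommRing R] (τ : R →+* R) (t : R) (ht : τ t = t) :
    P t * P t = P t * (P t).map τ := by
  have : (P t).map τ = P t := by
    ext i j
    fin_cases i <;> fin_cases j <;> simp [P, ht]
  rw [this]

theorem red_c {z : k} {c : GG s}
    (hc : c.1.1 = mat (serEquiv s : k⟦X⟧ →+* k⟦X⟧) X (C z) 0 0) :
    (red s c).1 = !![z, 0, 0; 0, z ^ 4, 0; 0, 0, z ^ 2] := by
  have h1 : (red s c).1 = (constantCoeff (R := k)).mapMatrix c.1.1 := rfl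
  have h2 : constantCoeff (serEquiv s (serEquiv s (C z))) = z ^ 4 := by
    rw [constantCoeff_serEquiv, constantCoeff_serEquiv, constantCoeff_C, hk.frob, hk.frob]
    ring
  have h3 : constantCoeff (serEquiv s (C z)) = z ^ 2 := by
    rw [constantCoeff_serEquiv, constantCoeff_C, hk.frob]
  rw [h1, hc]
  ext i j
  fin_cases i <;> fin_cases j <;> simp [mat, h2, h3]

/-- A conjugate of the Teichmüller element. -/
theorem exists_y {z : k} {c : GG s}
    (hc : c.1.1 = mat (serEquiv s : k⟦X⟧ →+* k⟦X⟧) X (C z) 0 0) :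
    ∃ y : GG s, (red s y).1 = !![z, z ^ 4 - z, z - z ^ 4; 0, z ^ 4, z ^ 2 - z ^ 4; 0, 0, z ^ 2] := by
  obtain ⟨w, hw⟩ : ∃ w : k⟦X⟧, (1 + X) * w = 1 := by
    have h1 : IsUnit (1 + X : k⟦X⟧) := by
      rw [PowerSeries.isUnit_iff_constantCoeff]
      simp
    obtain ⟨u, hu⟩ := h1
    exact ⟨(u⁻¹ : (k⟦X⟧)ˣ), by rw [← hu]; simp⟩
  have hw1 : (serEquiv s : k⟦X⟧ →+* k⟦X⟧) w = w := by
    have h1 := congrArg (serEquiv s : k⟦X⟧ →+* k⟦X⟧) hw
    rw [map_mul, map_add, map_one] at h1
    have h2 : (serEquiv s : k⟦X⟧ →+* k⟦X⟧) X = X := serEquiv_X s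
    rw [h2] at h1
    calc (serEquiv s : k⟦X⟧ →+* k⟦X⟧) w = ((1 + X) * w) * (serEquiv s : k⟦X⟧ →+* k⟦X⟧) w := by
          rw [hw, one_mul]
      _ = w * ((1 + X) * (serEquiv s : k⟦X⟧ →+* k⟦X⟧) w) := by ring
      _ = w := by rw [h1, mul_one]
  have hw0 : constantCoeff w = 1 := by
    have h1 := congrArg constantCoeff hw
    simpa using h1
  have hP := rel_P (serEquiv s : k⟦X⟧ →+* k⟦X⟧) X (serEquiv_X s)
  have h1 := rel_one (serEquiv s : k⟦X⟧ →+* k⟦X⟧) X
  have hm1 : (serEquiv s : k⟦X⟧ →+* k⟦X⟧) (-1) = -1 := by simp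
  have hQ : (1 + P (X : k⟦X⟧)) * (1 + ((-1 : k⟦X⟧) • P X + P X * P X)) =
      (1 + X : k⟦X⟧) • (1 : Matrix (Fin 3) (Fin 3) k⟦X⟧) := by
    rw [add_smul, one_smul, ← P_cube]
    simp only [add_mul, mul_add, one_mul, mul_one, neg_one_smul, mul_neg,
      mul_assoc]
    abel
  have hc' := mem_GG.1 c.2
  refine ⟨mkGG (w • ((1 + P X) * c.1.1 * (1 + ((-1 : k⟦X⟧) • P X + P X * P X)))) ?_ ?_, ?_⟩
  · rw [Matrix.det_smul, Matrix.det_mul, Matrix.det_mul, c.1.2, mul_one, ← Matrix.det_mul, hQ,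
      Matrix.det_smul, Matrix.det_one, mul_one, Fintype.card_fin, ← mul_pow, mul_comm w, hw,
      one_pow]
  · refine rel_smul _ _ _ hw1 (rel_mul _ _ (rel_mul _ _ (rel_add _ _ h1 hP) hc')
      (rel_add _ _ h1 (rel_add _ _ (rel_smul _ _ _ hm1 hP) (rel_mul _ _ hP hP))))
  · change (constantCoeff (R := k)).mapMatrix
      (w • ((1 + P X) * c.1.1 * (1 + ((-1 : k⟦X⟧) • P X + P X * P X)))) = _
    have hcc : (constantCoeff (R := k)).mapMatrix c.1.1 = !![z, 0, 0; 0, z ^ 4, 0; 0, 0, z ^ 2] :=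
      red_c hk hc
    have hPP : (constantCoeff (R := k)).mapMatrix (P X) = P 0 := by
      ext i j
      fin_cases i <;> fin_cases j <;> simp [P]
    have hsm : ∀ (r : k⟦X⟧) (A : Matrix (Fin 3) (Fin 3) k⟦X⟧),
        (constantCoeff (R := k)).mapMatrix (r • A) =
        constantCoeff r • (constantCoeff (R := k)).mapMatrix A := by
      intro r A
      ext i j
      simp
    rw [hsm, map_mul, map_mul, map_add, map_add, map_add, map_one, hsm, map_mul, hPP, hcc, hw0,
      one_smul]
    ext i j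
    fin_cases i <;> fin_cases j <;>
      simp [P, Matrix.mul_apply, Fin.sum_univ_three, Matrix.one_apply] <;> ring

/-- The element of `2`-power order in the reduction. -/
theorem pow_four {U : Matrix (Fin 3) (Fin 3) k} (h00 : U 0 0 = 1) (h11 : U 1 1 = 1)
    (h22 : U 2 2 = 1) (h10 : U 1 0 = 0) (h20 : U 2 0 = 0) (h21 : U 2 1 = 0) : U ^ 4 = 1 := by
  have h2 := hk.two
  have hU2 : U * U = !![1, 0, U 0 1 * U 1 2; 0, 1, 0; 0, 0, 1] := by
    ext i j
    fin_cases i <;> fin_cases j <;>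
      simp [Matrix.mul_apply, Fin.sum_univ_three, h00, h11, h22, h10, h20, h21]
    · linear_combination (U 0 1) * h2
    · linear_combination (U 0 2) * h2
    · linear_combination (U 1 2) * h2
  have h4 : U ^ 4 = (U * U) * (U * U) := by
    rw [show (4 : ℕ) = 2 + 2 from rfl, pow_add, pow_two]
  rw [h4, hU2]
  ext i j
  fin_cases i <;> fin_cases j <;> simp [Matrix.mul_apply, Fin.sum_univ_three]
  linear_combination (U 0 1 * U 1 2) * h2

end Elements

end Pool.Agent.Lib.Pb9311c
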